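import Pool.Agent.R612.PW.Rank

/-!
If the duplicator wins the game with many rounds, then the two words have rearrangements that are
comparable letter by letter.
-/

set_option autoImplicit false

namespace Pool.Agent.R612.PW

variable {C : Type}

/-- the game where the spoiler moves to the right in `u` and to the left in `v` -/
def FH (u v : List (Set C)) : ℕ → ℕ → ℕ → Prop
  | 0, i, j => symb u i ⊆ symb v j
  | n + 1, i, j => symb u i ⊆ symb v j ∧
      (∀ i', i < i' → i' < u.length → ∃ j', j < j' ∧ j' < v.length ∧ FH u v n i' j') ∧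
      (∀ j' < j, ∃ i' < i, FH u v n i' j')

theorem FH.symb {u v : List (Set C)} {n i j : ℕ} (h : FH u v n i j) : symb u i ⊆ symb v j := by
  cases n with
  | zero => exact h
  | succ n => exact h.1

theorem FH.pred {u v : List (Set C)} {n : ℕ} : ∀ {i j : ℕ}, FH u v (n + 1) i j → FH u v n i j := by
  induction n with
  | zero => exact fun h => h.1
  | succ n ih =>
    intro i j h
    refine ⟨h.1, fun i' h1 h2 => ?_, fun j' h1 => ?_⟩
    · obtain ⟨j', h3, h4, h5⟩ := h.2.1 i' h1 h2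
      exact ⟨j', h3, h4, ih h5⟩
    · obtain ⟨i', h3, h4⟩ := h.2.2 j' h1
      exact ⟨i', h3, ih h4⟩

theorem FH.mono {u v : List (Set C)} {n n' : ℕ} (hn : n ≤ n') {i j : ℕ} (h : FH u v n' i j) :
    FH u v n i j := by
  induction n', hn using Nat.le_induction with
  | base => exact h
  | succ n' _ ih => exact ih h.pred

/-- every position has a partner -/
structure Sim (u v : List (Set C)) (n : ℕ) : Prop where
  right : ∀ i < u.length, ∃ j < v.length, FH u v n i j
  left : ∀ j < v.length, ∃ i < u.length, FH u v n i j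

/-- a decreasing sequence of finite sets is constant somewhere -/
theorem exists_stable {α : Type} (Q : ℕ → Finset α) (hQ : ∀ n, Q (n + 1) ⊆ Q n) (N : ℕ)
    (hN : (Q 0).card ≤ N) : ∃ n ≤ N, Q (n + 1) = Q n := by
  by_contra hcon
  push Not at hcon
  have key : ∀ n, n ≤ N + 1 → (Q n).card + n ≤ N := by
    intro n
    induction n with
    | zero => exact fun _ => by omega
    | succ n ih =>
      intro hn
      have h1 := ih (by omega)
      have h2 : (Q (n + 1)).card < (Q n).card :=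
        Finset.card_lt_card (Finset.ssubset_iff_subset_ne.2 ⟨hQ n, hcon n (by omega)⟩)
      omega
  have := key (N + 1) le_rfl
  omega

/-- a finite set with a strict total order can be listed -/
theorem exists_list {α : Type} (r : α → α → Prop) (s : Finset α)
    (htrans : ∀ a b c, r a b → r b c → r a c)
    (htot : ∀ a ∈ s, ∀ b ∈ s, a ≠ b → r a b ∨ r b a) :
    ∃ l : List α, l.Pairwise r ∧ ∀ a, a ∈ l ↔ a ∈ s := by
  classical
  induction hn : s.card using Nat.strong_induction_on generalizing s with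
  | _ n ih =>
    rcases s.eq_empty_or_nonempty with rfl | ⟨a, ha⟩
    · exact ⟨[], List.Pairwise.nil, by simp⟩
    · obtain ⟨l₁, h₁, h₁'⟩ := ih ((s.erase a).filter fun b => r b a).card (by
        rw [← hn]
        exact (Finset.card_le_card (Finset.filter_subset _ _)).trans_lt
          (Finset.card_erase_lt_of_mem ha)) _ (fun b hb c hc => htot b
            (Finset.mem_of_mem_erase (Finset.mem_filter.1 hb).1) c
            (Finset.mem_of_mem_erase (Finset.mem_filter.1 hc).1)) rfl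
      obtain ⟨l₂, h₂, h₂'⟩ := ih ((s.erase a).filter fun b => ¬ r b a).card (by
        rw [← hn]
        exact (Finset.card_le_card (Finset.filter_subset _ _)).trans_lt
          (Finset.card_erase_lt_of_mem ha)) _ (fun b hb c hc => htot b
            (Finset.mem_of_mem_erase (Finset.mem_filter.1 hb).1) c
            (Finset.mem_of_mem_erase (Finset.mem_filter.1 hc).1)) rfl
      have h₁'' : ∀ b ∈ l₁, r b a := fun b hb => (Finset.mem_filter.1 ((h₁' b).1 hb)).2
      have h₂'' : ∀ b ∈ l₂, r a b := fun b hb => by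
        have h3 := Finset.mem_filter.1 ((h₂' b).1 hb)
        have h4 := Finset.mem_erase.1 h3.1
        rcases htot b h4.2 a ha h4.1 with h5 | h5
        · exact absurd h5 h3.2
        · exact h5
      refine ⟨l₁ ++ a :: l₂, ?_, ?_⟩
      · rw [List.pairwise_append]
        refine ⟨h₁, List.pairwise_cons.2 ⟨h₂'', h₂⟩, fun b hb c hc => ?_⟩
        rcases List.mem_cons.1 hc with rfl | hc
        · exact h₁'' b hb
        · exact htrans _ _ _ (h₁'' b hb) (h₂'' c hc)
      · intro b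
        rw [List.mem_append, List.mem_cons, h₁', h₂', Finset.mem_filter, Finset.mem_filter,
          Finset.mem_erase]
        by_cases hb : b = a
        · simp [hb, ha]
        · by_cases hr : r b a <;> simp [hb, hr]

/-- the four properties that have to be stable -/
def PP (u v : List (Set C)) (n x y : ℕ) : Fin 4 → Prop
  | 0 => ∃ j < v.length, y < j ∧ FH u v n x j
  | 1 => ∃ j < v.length, y ≤ j ∧ FH u v n x j
  | 2 => ∃ i < u.length, i < x ∧ FH u v n i y
  | 3 => ∃ i < u.length, i ≤ x ∧ FH u v n i y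

theorem PP.pred {u v : List (Set C)} {n x y : ℕ} {k : Fin 4} (h : PP u v (n + 1) x y k) :
    PP u v n x y k := by
  fin_cases k <;> (obtain ⟨j, h1, h2, h3⟩ := h; exact ⟨j, h1, h2, h3.pred⟩)

theorem exists_level (u v : List (Set C)) (X Y : Finset ℕ) :
    ∃ n ≤ X.card * (Y.card * 4), ∀ x ∈ X, ∀ y ∈ Y, ∀ k, PP u v n x y k → PP u v (n + 1) x y k := by
  classical
  let Q : ℕ → Finset (ℕ × ℕ × Fin 4) := fun n =>
    (X ×ˢ (Y ×ˢ Finset.univ)).filter fun p => PP u v n p.1 p.2.1 p.2.2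
  obtain ⟨n, hn, h⟩ := exists_stable Q (fun n p hp => by
      have hp' := Finset.mem_filter.1 hp
      exact Finset.mem_filter.2 ⟨hp'.1, hp'.2.pred⟩) (X.card * (Y.card * 4)) (by
      refine (Finset.card_le_card (Finset.filter_subset _ _)).trans ?_
      rw [Finset.card_product, Finset.card_product, Finset.card_univ, Fintype.card_fin])
  refine ⟨n, hn, fun x hx y hy k hk => ?_⟩
  have : (x, y, k) ∈ Q n := Finset.mem_filter.2 ⟨Finset.mem_product.2 ⟨hx,
    Finset.mem_product.2 ⟨hy, Finset.mem_univ _⟩⟩, hk⟩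
  rw [← h] at this
  exact (Finset.mem_filter.1 this).2

theorem exists_max (n : ℕ) (P : ℕ → Prop) (h : ∃ j < n, P j) :
    ∃ j < n, P j ∧ ∀ j' < n, P j' → j' ≤ j := by
  classical
  have hne : ((Finset.range n).filter P).Nonempty := by
    obtain ⟨j, h1, h2⟩ := h
    exact ⟨j, Finset.mem_filter.2 ⟨Finset.mem_range.2 h1, h2⟩⟩
  have hm := Finset.mem_filter.1 (((Finset.range n).filter P).max'_mem hne)
  rw [Finset.mem_range] at hm
  exact ⟨_, hm.1, hm.2, fun j' h1 h2 => Finset.le_max' _ _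
    (Finset.mem_filter.2 ⟨Finset.mem_range.2 h1, h2⟩)⟩

theorem exists_min (n : ℕ) (P : ℕ → Prop) (h : ∃ j < n, P j) :
    ∃ j < n, P j ∧ ∀ j' < n, P j' → j ≤ j' := by
  classical
  have hne : ((Finset.range n).filter P).Nonempty := by
    obtain ⟨j, h1, h2⟩ := h
    exact ⟨j, Finset.mem_filter.2 ⟨Finset.mem_range.2 h1, h2⟩⟩
  have hm := Finset.mem_filter.1 (((Finset.range n).filter P).min'_mem hne)
  rw [Finset.mem_range] at hm
  exact ⟨_, hm.1, hm.2, fun j' h1 h2 => Finset.min'_le _ _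
    (Finset.mem_filter.2 ⟨Finset.mem_range.2 h1, h2⟩)⟩

/-- the key result -/
theorem exists_chain {u v : List (Set C)} {X Y : Finset ℕ} (hX : ∀ x ∈ X, x < u.length)
    (hY : ∀ y ∈ Y, y < v.length) {N : ℕ} (hN : X.card * (Y.card * 4) ≤ N) (h : Sim u v N) :
    ∃ I J : List ℕ, Sorted u X I ∧ Sorted v Y J ∧
      List.Forall₂ (fun a b => a ⊆ b) (I.map (symb u)) (J.map (symb v)) := by
  classical
  obtain ⟨n, hn, hst⟩ := exists_level u v X Y
  have hn' : n ≤ N := hn.trans hN
  -- the last partners of the elements of `X` and the first partners of the elements of `Y`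
  have hf : ∀ x, ∃ j, x ∈ X → j < v.length ∧ FH u v n x j ∧
      ∀ j' < v.length, FH u v n x j' → j' ≤ j := by
    intro x
    by_cases hx : x ∈ X
    · obtain ⟨j, h1, h2⟩ := h.right x (hX x hx)
      obtain ⟨j, h3, h4, h5⟩ := exists_max v.length (fun j => FH u v n x j) ⟨j, h1, h2.mono hn'⟩
      exact ⟨j, fun _ => ⟨h3, h4, h5⟩⟩
    · exact ⟨0, fun h => absurd h hx⟩
  have hg : ∀ y, ∃ i, y ∈ Y → i < u.length ∧ FH u v n i y ∧
      ∀ i' < u.length, FH u v n i' y → i ≤ i' := by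
    intro y
    by_cases hy : y ∈ Y
    · obtain ⟨i, h1, h2⟩ := h.left y (hY y hy)
      obtain ⟨i, h3, h4, h5⟩ := exists_min u.length (fun i => FH u v n i y) ⟨i, h1, h2.mono hn'⟩
      exact ⟨i, fun _ => ⟨h3, h4, h5⟩⟩
    · exact ⟨0, fun h => absurd h hy⟩
  choose f hf using hf
  choose g hg using hg
  -- the order relation between the marks
  have hf1 : ∀ x ∈ X, ∀ y ∈ Y, y < f x → g y < x := by
    intro x hx y hy hlt
    obtain ⟨h1, h2, h3⟩ := hf x hx
    obtain ⟨j, h4, h5, h6⟩ := hst x hx y hy 0 ⟨f x, h1, hlt, h2⟩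
    obtain ⟨i, h7, h8⟩ := h6.2.2 y h5
    exact lt_of_le_of_lt ((hg y hy).2.2 i (h7.trans (hX x hx)) h8) h7
  have hg1 : ∀ x ∈ X, ∀ y ∈ Y, g y < x → y < f x := by
    intro x hx y hy hlt
    obtain ⟨h1, h2, h3⟩ := hg y hy
    obtain ⟨i, h4, h5, h6⟩ := hst x hx y hy 2 ⟨g y, h1, hlt, h2⟩
    obtain ⟨j, h7, h8, h9⟩ := h6.2.1 x h5 (hX x hx)
    exact lt_of_lt_of_le h7 ((hf x hx).2.2 j h8 h9)
  have hf2 : ∀ x ∈ X, ∀ y ∈ Y, y = f x → g y = x := by
    intro x hx y hy he
    have h1 : g y ≤ x := (hg y hy).2.2 x (hX x hx) (he ▸ (hf x hx).2.1)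
    rcases h1.lt_or_eq with h2 | h2
    · exact absurd (hg1 x hx y hy h2) (by rw [he]; exact lt_irrefl _)
    · exact h2
  have hg2 : ∀ x ∈ X, ∀ y ∈ Y, g y = x → y = f x := by
    intro x hx y hy he
    have h1 : y ≤ f x := (hf x hx).2.2 y (hY y hy) (he ▸ (hg y hy).2.1)
    rcases h1.lt_or_eq with h2 | h2
    · exact absurd (hf1 x hx y hy h2) (by rw [he]; exact lt_irrefl _)
    · exact h2
  have hfx : ∀ x ∈ X, ∀ x' ∈ X, x < x' → ∀ y ∈ Y, y ≤ f x → y < f x' := by
    intro x hx x' hx' hlt y hy hle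
    obtain ⟨h1, h2, h3⟩ := hf x hx
    obtain ⟨j, h4, h5, h6⟩ := hst x hx y hy 1 ⟨f x, h1, hle, h2⟩
    obtain ⟨j', h7, h8, h9⟩ := h6.2.1 x' hlt (hX x' hx')
    exact lt_of_lt_of_le (lt_of_le_of_lt h5 h7) ((hf x' hx').2.2 j' h8 h9)
  have hgy : ∀ y ∈ Y, ∀ y' ∈ Y, y < y' → ∀ x ∈ X, x ≤ g y → x < g y' := by
    intro y hy y' hy' hlt x hx hle
    by_contra hcon
    push Not at hcon
    obtain ⟨h1, h2, h3⟩ := hg y' hy'
    obtain ⟨i, h4, h5, h6⟩ := hst x hx y' hy' 3 ⟨g y', h1, hcon, h2⟩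
    obtain ⟨i', h7, h8⟩ := h6.2.2 y hlt
    have := (hg y hy).2.2 i' (h7.trans (lt_of_le_of_lt h5 (hX x hx))) h8
    omega
  let Z : Finset (ℕ × ℕ) := X.image (fun x => (x, f x)) ∪ Y.image (fun y => (g y, y))
  let r : ℕ × ℕ → ℕ × ℕ → Prop := fun e e' =>
    (∀ x ∈ X, x ≤ e.1 → x < e'.1) ∧ (∀ y ∈ Y, y ≤ e.2 → y < e'.2)
  have hrt : ∀ a b c, r a b → r b c → r a c := fun a b c h1 h2 =>
    ⟨fun x hx hle => h2.1 x hx (h1.1 x hx hle).le, fun y hy hle => h2.2 y hy (h1.2 y hy hle).le⟩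
  have hmix : ∀ x ∈ X, ∀ y ∈ Y, (x, f x) = (g y, y) ∨ r (x, f x) (g y, y) ∨
      r (g y, y) (x, f x) := by
    intro x hx y hy
    rcases Nat.lt_trichotomy y (f x) with hlt | heq | hgt
    · refine Or.inr (Or.inr ⟨fun z _ hz => lt_of_le_of_lt hz (hf1 x hx y hy hlt),
        fun z _ hz => lt_of_le_of_lt hz hlt⟩)
    · exact Or.inl (Prod.ext (hf2 x hx y hy heq).symm heq.symm)
    · refine Or.inr (Or.inl ⟨fun z _ hz => lt_of_le_of_lt hz ?_,
        fun z _ hz => lt_of_le_of_lt hz hgt⟩)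
      by_contra hcon
      push Not at hcon
      change g y ≤ x at hcon
      rcases hcon.lt_or_eq with h1 | h1
      · exact absurd (hg1 x hx y hy h1) (by omega)
      · have := hg2 x hx y hy h1
        omega
  obtain ⟨l, hl, hmem⟩ := exists_list r Z hrt (by
    intro a ha b hb hab
    simp only [Z, Finset.mem_union, Finset.mem_image] at ha hb
    rcases ha with ⟨x, hx, rfl⟩ | ⟨y, hy, rfl⟩ <;> rcases hb with ⟨x', hx', rfl⟩ | ⟨y', hy', rfl⟩
    · rcases Nat.lt_trichotomy x x' with hlt | heq | hgt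
      · exact Or.inl ⟨fun z _ hz => lt_of_le_of_lt hz hlt, hfx x hx x' hx' hlt⟩
      · exact absurd (by rw [heq]) hab
      · exact Or.inr ⟨fun z _ hz => lt_of_le_of_lt hz hgt, hfx x' hx' x hx hgt⟩
    · exact (hmix x hx y' hy').resolve_left hab
    · exact ((hmix x' hx' y hy).resolve_left (Ne.symm hab)).symm
    · rcases Nat.lt_trichotomy y y' with hlt | heq | hgt
      · exact Or.inl ⟨hgy y hy y' hy' hlt, fun z _ hz => lt_of_le_of_lt hz hlt⟩
      · exact absurd (by rw [heq]) hab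
      · exact Or.inr ⟨hgy y' hy' y hy hgt, fun z _ hz => lt_of_le_of_lt hz hgt⟩)
  have hZ : ∀ e ∈ l, e.1 < u.length ∧ e.2 < v.length ∧ symb u e.1 ⊆ symb v e.2 := by
    intro e he
    rw [hmem] at he
    simp only [Z, Finset.mem_union, Finset.mem_image] at he
    rcases he with ⟨x, hx, rfl⟩ | ⟨y, hy, rfl⟩
    · exact ⟨hX x hx, (hf x hx).1, (hf x hx).2.1.symb⟩
    · exact ⟨(hg y hy).1, hY y hy, (hg y hy).2.1.symb⟩
  refine ⟨l.map Prod.fst, l.map Prod.snd, ⟨?_, ?_, ?_⟩, ⟨?_, ?_, ?_⟩, ?_⟩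
  · intro i hi
    obtain ⟨e, he, rfl⟩ := List.mem_map.1 hi
    exact (hZ e he).1
  · intro x hx
    exact List.mem_map.2 ⟨(x, f x), (hmem _).2 (Finset.mem_union_left _
      (Finset.mem_image.2 ⟨x, hx, rfl⟩)), rfl⟩
  · rw [List.pairwise_map]
    exact hl.imp fun h => h.1
  · intro i hi
    obtain ⟨e, he, rfl⟩ := List.mem_map.1 hi
    exact (hZ e he).2.1
  · intro y hy
    exact List.mem_map.2 ⟨(g y, y), (hmem _).2 (Finset.mem_union_right _
      (Finset.mem_image.2 ⟨y, hy, rfl⟩)), rfl⟩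
  · rw [List.pairwise_map]
    exact hl.imp fun h => h.2
  · rw [List.map_map, List.map_map, List.forall₂_map_left_iff, List.forall₂_map_right_iff,
      List.forall₂_same]
    exact fun e he => (hZ e he).2.2

end Pool.Agent.R612.PW
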