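import Mathlib

/-!
Two-variable first-order logic on finite words over the alphabet of subsets of a finite set.
-/

set_option autoImplicit false

namespace Pool.Agent.R612.PW

/-- the binary predicates on positions -/
inductive Pred : Type
  | le
  | lt
  | succ
  | nsucc

/-- their meaning -/
def Pred.Holds : Pred → ℕ → ℕ → Prop
  | .le, p, q => p ≤ q
  | .lt, p, q => p < q
  | .succ, p, q => q = p + 1
  | .nsucc, p, q => q ≠ p + 1

/-- the formulas of two-variable first-order logic; the two variables are the elements of `Bool`,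
the unary predicates are the elements of `C` -/
inductive Fm (C : Type) : Type
  | top : Fm C
  | bot : Fm C
  | letter (a : C) (x : Bool) : Fm C
  | bin (R : Pred) (x y : Bool) : Fm C
  | neg (φ : Fm C) : Fm C
  | and (φ ψ : Fm C) : Fm C
  | or (φ ψ : Fm C) : Fm C
  | ex (x : Bool) (φ : Fm C) : Fm C
  | all (x : Bool) (φ : Fm C) : Fm C

variable {C : Type}

/-- the free variables -/
def Fm.free : Fm C → Set Bool
  | .top => ∅
  | .bot => ∅
  | .letter _ x => {x}
  | .bin _ x y => {x, y}
  | .neg φ => φ.free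
  | .and φ ψ => φ.free ∪ ψ.free
  | .or φ ψ => φ.free ∪ ψ.free
  | .ex x φ => φ.free \ {x}
  | .all x φ => φ.free \ {x}

/-- the binary predicates of the formula are in `B` -/
def Fm.Over (B : Set Pred) : Fm C → Prop
  | .top => True
  | .bot => True
  | .letter _ _ => True
  | .bin R _ _ => R ∈ B
  | .neg φ => φ.Over B
  | .and φ ψ => φ.Over B ∧ ψ.Over B
  | .or φ ψ => φ.Over B ∧ ψ.Over B
  | .ex _ φ => φ.Over B
  | .all _ φ => φ.Over B

/-- the formula is free of negations -/
def Fm.Pos : Fm C → Prop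
  | .top => True
  | .bot => True
  | .letter _ _ => True
  | .bin _ _ _ => True
  | .neg _ => False
  | .and φ ψ => φ.Pos ∧ ψ.Pos
  | .or φ ψ => φ.Pos ∧ ψ.Pos
  | .ex _ φ => φ.Pos
  | .all _ φ => φ.Pos

/-- the letter of a word at a position -/
def symb (w : List (Set C)) (p : ℕ) : Set C := w.getD p ∅

/-- satisfaction of a formula in a word under an assignment; the quantifiers range over the
positions of the word -/
def Fm.Sat (w : List (Set C)) : Fm C → (Bool → ℕ) → Prop
  | .top, _ => True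
  | .bot, _ => False
  | .letter a x, s => a ∈ symb w (s x)
  | .bin R x y, s => R.Holds (s x) (s y)
  | .neg φ, s => ¬ φ.Sat w s
  | .and φ ψ, s => φ.Sat w s ∧ ψ.Sat w s
  | .or φ ψ, s => φ.Sat w s ∨ ψ.Sat w s
  | .ex x φ, s => ∃ p < w.length, φ.Sat w (Function.update s x p)
  | .all x φ, s => ∀ p < w.length, φ.Sat w (Function.update s x p)

/-- the language is defined by a sentence of `FO²[B]` -/
def Definable (B : Set Pred) (L : Set (List (Set C))) : Prop :=
  ∃ φ : Fm C, φ.free = ∅ ∧ φ.Over B ∧ ∀ w, w ∈ L ↔ φ.Sat w fun _ => 0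

/-- the language is defined by a negation-free sentence of `FO²[B]` -/
def PosDefinable (B : Set Pred) (L : Set (List (Set C))) : Prop :=
  ∃ φ : Fm C, φ.free = ∅ ∧ φ.Over B ∧ φ.Pos ∧ ∀ w, w ∈ L ↔ φ.Sat w fun _ => 0

/-- monotone languages -/
def IsMonotone (L : Set (List (Set C))) : Prop :=
  ∀ u v : List (Set C), List.Forall₂ (fun a b => a ⊆ b) u v → u ∈ L → v ∈ L

/-- the signature of the order -/
def BLt : Set Pred := {.le, .lt}

/-- the signature of the order and the successor -/
def BZero : Set Pred := {.le, .lt, .succ, .nsucc}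

/-- quantifier rank -/
def Fm.rank : Fm C → ℕ
  | .top => 0
  | .bot => 0
  | .letter _ _ => 0
  | .bin _ _ _ => 0
  | .neg φ => φ.rank
  | .and φ ψ => max φ.rank ψ.rank
  | .or φ ψ => max φ.rank ψ.rank
  | .ex _ φ => φ.rank + 1
  | .all _ φ => φ.rank + 1

/-- two pairs of positions agree on the predicates of `B` -/
def Agree (B : Set Pred) (i i' j j' : ℕ) : Prop :=
  ∀ R ∈ B, (R.Holds i i' ↔ R.Holds j j') ∧ (R.Holds i' i ↔ R.Holds j' j)

theorem holds_self (R : Pred) (i j : ℕ) : R.Holds i i ↔ R.Holds j j := by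
  cases R <;> simp [Pred.Holds]

theorem Agree.symm {B : Set Pred} {i i' j j' : ℕ} (h : Agree B i i' j j') : Agree B i' i j' j :=
  fun R hR => ⟨(h R hR).2, (h R hR).1⟩

/-- a family of relations between the positions of two words, with the back-and-forth property -/
structure Game (B : Set Pred) (K : ℕ) (u v : List (Set C)) (S : ℕ → ℕ → ℕ → Prop) : Prop where
  mono : ∀ k i j, S (k + 1) i j → S k i j
  forth : ∀ k, k < K → ∀ i j, S (k + 1) i j → ∀ i' < u.length, ∃ j' < v.length,
    S k i' j' ∧ Agree B i i' j j'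
  back : ∀ k, k < K → ∀ i j, S (k + 1) i j → ∀ j' < v.length, ∃ i' < u.length,
    S k i' j' ∧ Agree B i i' j j'
  forth₀ : ∀ k, k < K → ∀ i' < u.length, ∃ j' < v.length, S k i' j'
  back₀ : ∀ k, k < K → ∀ j' < v.length, ∃ i' < u.length, S k i' j'

theorem Game.mono' {B : Set Pred} {K : ℕ} {u v : List (Set C)} {S : ℕ → ℕ → ℕ → Prop}
    (h : Game B K u v S) {k k' i j : ℕ} (hk : k ≤ k') (hS : S k' i j) : S k i j := by
  induction k', hk using Nat.le_induction with
  | base => exact hS
  | succ k' _ ih => exact ih (h.mono _ _ _ hS)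

/-- the invariant on the assignments -/
structure Inv (B : Set Pred) (S : ℕ → ℕ → ℕ → Prop) (k : ℕ) (V : Set Bool) (s t : Bool → ℕ) :
    Prop where
  rel : ∀ x ∈ V, S k (s x) (t x)
  agree : ∀ x ∈ V, (!x) ∈ V → Agree B (s x) (s !x) (t x) (t !x)

theorem Inv.sub {B : Set Pred} {S : ℕ → ℕ → ℕ → Prop} {k : ℕ} {V W : Set Bool} {s t : Bool → ℕ}
    (h : Inv B S k V s t) (hW : W ⊆ V) : Inv B S k W s t where
  rel := fun x hx => h.rel x (hW hx)
  agree := fun x hx hx' => h.agree x (hW hx) (hW hx')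

theorem Game.inv_mono {B : Set Pred} {K : ℕ} {u v : List (Set C)} {S : ℕ → ℕ → ℕ → Prop}
    (hG : Game B K u v S) {k k' : ℕ} {V : Set Bool} {s t : Bool → ℕ}
    (h : Inv B S k V s t) (hk : k' ≤ k) : Inv B S k' V s t where
  rel := fun x hx => hG.mono' hk (h.rel x hx)
  agree := h.agree

theorem Inv.bin {B : Set Pred} {S : ℕ → ℕ → ℕ → Prop} {k : ℕ} {s t : Bool → ℕ} {R : Pred}
    (hR : R ∈ B) {x y : Bool} (h : Inv B S k {x, y} s t) :
    R.Holds (s x) (s y) ↔ R.Holds (t x) (t y) := by
  by_cases hxy : y = x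
  · subst hxy
    exact holds_self R _ _
  · have hy : y = !x := by
      revert hxy
      cases x <;> cases y <;> simp
    subst hy
    exact (h.agree x (by simp) (by simp) R hR).1

theorem Game.inv_forth {B : Set Pred} {K : ℕ} {u v : List (Set C)} {S : ℕ → ℕ → ℕ → Prop}
    (hG : Game B K u v S) {k : ℕ} (hk : k < K) {V : Set Bool} {x : Bool} {s t : Bool → ℕ}
    (h : Inv B S (k + 1) (V \ {x}) s t) {p : ℕ} (hp : p < u.length) :
    ∃ q < v.length, Inv B S k V (Function.update s x p) (Function.update t x q) := by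
  have hne : (!x) ≠ x := by cases x <;> simp
  by_cases hx : (!x) ∈ V
  · obtain ⟨q, hq, hS, hA⟩ := hG.forth k hk _ _ (h.rel (!x) ⟨hx, hne⟩) p hp
    refine ⟨q, hq, ⟨fun y hy => ?_, fun y hy hy' => ?_⟩⟩
    · by_cases hyx : y = x
      · subst hyx
        simpa using hS
      · rw [Function.update_of_ne hyx, Function.update_of_ne hyx]
        exact hG.mono _ _ _ (h.rel y ⟨hy, hyx⟩)
    · by_cases hyx : y = x
      · subst hyx
        rw [Function.update_self, Function.update_self, Function.update_of_ne hne,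
          Function.update_of_ne hne]
        exact hA.symm
      · have e : y = !x := by
          revert hyx
          cases x <;> cases y <;> simp
        subst e
        rw [Bool.not_not, Function.update_self, Function.update_self, Function.update_of_ne hne,
          Function.update_of_ne hne]
        exact hA
  · obtain ⟨q, hq, hS⟩ := hG.forth₀ k hk p hp
    have hV : ∀ y ∈ V, y = x := by
      intro y hy
      by_contra hyx
      have e : y = !x := by
        revert hyx
        cases x <;> cases y <;> simp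
      exact hx (e ▸ hy)
    refine ⟨q, hq, ⟨fun y hy => ?_, fun y hy hy' => ?_⟩⟩
    · rw [hV y hy, Function.update_self, Function.update_self]
      exact hS
    · rw [hV y hy] at hy'
      exact absurd hy' hx

theorem Game.inv_back {B : Set Pred} {K : ℕ} {u v : List (Set C)} {S : ℕ → ℕ → ℕ → Prop}
    (hG : Game B K u v S) {k : ℕ} (hk : k < K) {V : Set Bool} {x : Bool} {s t : Bool → ℕ}
    (h : Inv B S (k + 1) (V \ {x}) s t) {q : ℕ} (hq : q < v.length) :
    ∃ p < u.length, Inv B S k V (Function.update s x p) (Function.update t x q) := by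
  have hne : (!x) ≠ x := by cases x <;> simp
  by_cases hx : (!x) ∈ V
  · obtain ⟨p, hp, hS, hA⟩ := hG.back k hk _ _ (h.rel (!x) ⟨hx, hne⟩) q hq
    refine ⟨p, hp, ⟨fun y hy => ?_, fun y hy hy' => ?_⟩⟩
    · by_cases hyx : y = x
      · subst hyx
        simpa using hS
      · rw [Function.update_of_ne hyx, Function.update_of_ne hyx]
        exact hG.mono _ _ _ (h.rel y ⟨hy, hyx⟩)
    · by_cases hyx : y = x
      · subst hyx
        rw [Function.update_self, Function.update_self, Function.update_of_ne hne,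
          Function.update_of_ne hne]
        exact hA.symm
      · have e : y = !x := by
          revert hyx
          cases x <;> cases y <;> simp
        subst e
        rw [Bool.not_not, Function.update_self, Function.update_self, Function.update_of_ne hne,
          Function.update_of_ne hne]
        exact hA
  · obtain ⟨p, hp, hS⟩ := hG.back₀ k hk q hq
    have hV : ∀ y ∈ V, y = x := by
      intro y hy
      by_contra hyx
      have e : y = !x := by
        revert hyx
        cases x <;> cases y <;> simp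
      exact hx (e ▸ hy)
    refine ⟨p, hp, ⟨fun y hy => ?_, fun y hy hy' => ?_⟩⟩
    · rw [hV y hy, Function.update_self, Function.update_self]
      exact hS
    · rw [hV y hy] at hy'
      exact absurd hy' hx

/-- positive formulas are preserved -/
theorem Game.pos {B : Set Pred} {K : ℕ} {u v : List (Set C)} {S : ℕ → ℕ → ℕ → Prop}
    (hG : Game B K u v S) (hl : ∀ k i j, S k i j → symb u i ⊆ symb v j) (φ : Fm C) :
    φ.Over B → φ.Pos → ∀ k, φ.rank ≤ k → k ≤ K → ∀ s t, Inv B S k φ.free s t →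
      φ.Sat u s → φ.Sat v t := by
  induction φ with
  | top => exact fun _ _ _ _ _ _ _ _ _ => trivial
  | bot => exact fun _ _ _ _ _ _ _ _ h => h
  | letter a x => exact fun _ _ k _ _ s t h ha => hl k _ _ (h.rel x rfl) ha
  | bin R x y => exact fun hR _ k _ _ s t h ha => (h.bin hR).1 ha
  | neg φ _ => exact fun _ h => h.elim
  | and φ ψ ih₁ ih₂ =>
    rintro ⟨hB₁, hB₂⟩ ⟨hP₁, hP₂⟩ k hr hk s t h ⟨h₁, h₂⟩
    have hr' := max_le_iff.1 hr
    exact ⟨ih₁ hB₁ hP₁ k hr'.1 hk s t (h.sub Set.subset_union_left) h₁,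
      ih₂ hB₂ hP₂ k hr'.2 hk s t (h.sub Set.subset_union_right) h₂⟩
  | or φ ψ ih₁ ih₂ =>
    rintro ⟨hB₁, hB₂⟩ ⟨hP₁, hP₂⟩ k hr hk s t h (h₁ | h₂)
    · exact Or.inl (ih₁ hB₁ hP₁ k (max_le_iff.1 hr).1 hk s t (h.sub Set.subset_union_left) h₁)
    · exact Or.inr (ih₂ hB₂ hP₂ k (max_le_iff.1 hr).2 hk s t (h.sub Set.subset_union_right) h₂)
  | ex x φ ih =>
    rintro hB hP k hr hk s t h ⟨p, hp, hs⟩
    obtain ⟨k, rfl⟩ : ∃ k', k = k' + 1 := ⟨k - 1, by simp only [Fm.rank] at hr; omega⟩
    obtain ⟨q, hq, hI⟩ := hG.inv_forth (by omega) h hp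
    exact ⟨q, hq, ih hB hP k (by simp only [Fm.rank] at hr; omega) (by omega) _ _ hI hs⟩
  | all x φ ih =>
    intro hB hP k hr hk s t h hs q hq
    obtain ⟨k, rfl⟩ : ∃ k', k = k' + 1 := ⟨k - 1, by simp only [Fm.rank] at hr; omega⟩
    obtain ⟨p, hp, hI⟩ := hG.inv_back (by omega) h hq
    exact ih hB hP k (by simp only [Fm.rank] at hr; omega) (by omega) _ _ hI (hs p hp)

/-- all formulas are preserved -/
theorem Game.all {B : Set Pred} {K : ℕ} {u v : List (Set C)} {S : ℕ → ℕ → ℕ → Prop}
    (hG : Game B K u v S) (hl : ∀ k i j, S k i j → symb u i = symb v j) (φ : Fm C) :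
    φ.Over B → ∀ k, φ.rank ≤ k → k ≤ K → ∀ s t, Inv B S k φ.free s t →
      (φ.Sat u s ↔ φ.Sat v t) := by
  induction φ with
  | top => exact fun _ _ _ _ _ _ _ => Iff.rfl
  | bot => exact fun _ _ _ _ _ _ _ => Iff.rfl
  | letter a x =>
    intro _ k _ _ s t h
    simp only [Fm.Sat]
    rw [hl k _ _ (h.rel x rfl)]
  | bin R x y => exact fun hR k _ _ s t h => h.bin hR
  | neg φ ih => exact fun hB k hr hk s t h => not_congr (ih hB k hr hk s t h)
  | and φ ψ ih₁ ih₂ =>
    rintro ⟨hB₁, hB₂⟩ k hr hk s t h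
    have hr' : φ.rank ≤ k ∧ ψ.rank ≤ k := max_le_iff.1 hr
    exact and_congr (ih₁ hB₁ k hr'.1 hk s t (h.sub Set.subset_union_left))
      (ih₂ hB₂ k hr'.2 hk s t (h.sub Set.subset_union_right))
  | or φ ψ ih₁ ih₂ =>
    rintro ⟨hB₁, hB₂⟩ k hr hk s t h
    have hr' := max_le_iff.1 hr
    exact or_congr (ih₁ hB₁ k hr'.1 hk s t (h.sub Set.subset_union_left))
      (ih₂ hB₂ k hr'.2 hk s t (h.sub Set.subset_union_right))
  | ex x φ ih =>
    intro hB k hr hk s t h
    obtain ⟨k, rfl⟩ : ∃ k', k = k' + 1 := ⟨k - 1, by simp only [Fm.rank] at hr; omega⟩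
    have hr' : φ.rank ≤ k := by simp only [Fm.rank] at hr; omega
    constructor
    · rintro ⟨p, hp, hs⟩
      obtain ⟨q, hq, hI⟩ := hG.inv_forth (by omega) h hp
      exact ⟨q, hq, (ih hB k hr' (by omega) _ _ hI).1 hs⟩
    · rintro ⟨q, hq, hs⟩
      obtain ⟨p, hp, hI⟩ := hG.inv_back (by omega) h hq
      exact ⟨p, hp, (ih hB k hr' (by omega) _ _ hI).2 hs⟩
  | all x φ ih =>
    intro hB k hr hk s t h
    obtain ⟨k, rfl⟩ : ∃ k', k = k' + 1 := ⟨k - 1, by simp only [Fm.rank] at hr; omega⟩
    have hr' : φ.rank ≤ k := by simp only [Fm.rank] at hr; omega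
    constructor
    · intro hs q hq
      obtain ⟨p, hp, hI⟩ := hG.inv_back (by omega) h hq
      exact (ih hB k hr' (by omega) _ _ hI).1 (hs p hp)
    · intro hs p hp
      obtain ⟨q, hq, hI⟩ := hG.inv_forth (by omega) h hp
      exact (ih hB k hr' (by omega) _ _ hI).2 (hs q hq)

end Pool.Agent.R612.PW
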