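import Pool.Agent.R612.PW.Defs

/-!
Marking boundedly many positions of a word, so that the words with the same marks and the same
letters between them satisfy the same sentences of `FO²[<]`.
-/

set_option autoImplicit false

namespace Pool.Agent.R612.PW

variable {C : Type}

/-- the same letter, and the same place with respect to `R` -/
def Same (u : List (Set C)) (R : Finset ℕ) (i i' : ℕ) : Prop :=
  symb u i = symb u i' ∧ ∀ x ∈ R, (x < i ↔ x < i') ∧ (i < x ↔ i' < x)

theorem Same.refl (u : List (Set C)) (R : Finset ℕ) (i : ℕ) : Same u R i i :=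
  ⟨rfl, fun _ _ => ⟨Iff.rfl, Iff.rfl⟩⟩

theorem Same.symm {u : List (Set C)} {R : Finset ℕ} {i i' : ℕ} (h : Same u R i i') :
    Same u R i' i :=
  ⟨h.1.symm, fun x hx => ⟨(h.2 x hx).1.symm, (h.2 x hx).2.symm⟩⟩

theorem Same.trans {u : List (Set C)} {R : Finset ℕ} {i i' i'' : ℕ} (h : Same u R i i')
    (h' : Same u R i' i'') : Same u R i i'' :=
  ⟨h.1.trans h'.1, fun x hx => ⟨(h.2 x hx).1.trans (h'.2 x hx).1,
    (h.2 x hx).2.trans (h'.2 x hx).2⟩⟩

theorem Same.mono {u : List (Set C)} {R R' : Finset ℕ} (hR : R ⊆ R') {i i' : ℕ}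
    (h : Same u R' i i') : Same u R i i' :=
  ⟨h.1, fun x hx => h.2 x (hR hx)⟩

open Classical in
/-- add the last and the first element of each class -/
noncomputable def nextR (u : List (Set C)) (R : Finset ℕ) : Finset ℕ :=
  R ∪ ((Finset.range u.length).filter (fun i => ∀ i' < u.length, Same u R i i' → i' ≤ i) ∪
    (Finset.range u.length).filter (fun i => ∀ i' < u.length, Same u R i i' → i ≤ i'))

/-- the marked positions -/
noncomputable def Rk (u : List (Set C)) : ℕ → Finset ℕ
  | 0 => ∅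
  | r + 1 => nextR u (Rk u r)

theorem Rk_succ (u : List (Set C)) (r : ℕ) : Rk u (r + 1) = nextR u (Rk u r) := rfl

theorem Rk_subset_succ (u : List (Set C)) (r : ℕ) : Rk u r ⊆ Rk u (r + 1) :=
  Finset.subset_union_left

theorem Rk_mono (u : List (Set C)) {r r' : ℕ} (h : r ≤ r') : Rk u r ⊆ Rk u r' := by
  induction r', h using Nat.le_induction with
  | base => exact subset_rfl
  | succ r' _ ih => exact ih.trans (Rk_subset_succ u r')

theorem Rk_lt (u : List (Set C)) (r : ℕ) : ∀ x ∈ Rk u r, x < u.length := by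
  classical
  induction r with
  | zero => simp [Rk]
  | succ r ih =>
    intro x hx
    rw [Rk_succ, nextR, Finset.mem_union, Finset.mem_union, Finset.mem_filter,
      Finset.mem_filter, Finset.mem_range] at hx
    rcases hx with hx | hx | hx
    · exact ih x hx
    · exact hx.1
    · exact hx.1

theorem exists_last (u : List (Set C)) (r : ℕ) {i : ℕ} (hi : i < u.length) :
    ∃ z ∈ Rk u (r + 1), z < u.length ∧ i ≤ z ∧ Same u (Rk u r) i z := by
  classical
  let F := (Finset.range u.length).filter fun z => Same u (Rk u r) i z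
  have hF : F.Nonempty := ⟨i, Finset.mem_filter.2 ⟨Finset.mem_range.2 hi, Same.refl _ _ _⟩⟩
  have hm := Finset.mem_filter.1 (F.max'_mem hF)
  rw [Finset.mem_range] at hm
  refine ⟨F.max' hF, ?_, hm.1, F.le_max' i (Finset.mem_filter.2
    ⟨Finset.mem_range.2 hi, Same.refl _ _ _⟩), hm.2⟩
  rw [Rk_succ, nextR, Finset.mem_union, Finset.mem_union, Finset.mem_filter, Finset.mem_range]
  refine Or.inr (Or.inl ⟨hm.1, fun i' hi' h => F.le_max' i' ?_⟩)
  exact Finset.mem_filter.2 ⟨Finset.mem_range.2 hi', hm.2.trans h⟩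

theorem exists_first (u : List (Set C)) (r : ℕ) {i : ℕ} (hi : i < u.length) :
    ∃ z ∈ Rk u (r + 1), z < u.length ∧ z ≤ i ∧ Same u (Rk u r) i z := by
  classical
  let F := (Finset.range u.length).filter fun z => Same u (Rk u r) i z
  have hF : F.Nonempty := ⟨i, Finset.mem_filter.2 ⟨Finset.mem_range.2 hi, Same.refl _ _ _⟩⟩
  have hm := Finset.mem_filter.1 (F.min'_mem hF)
  rw [Finset.mem_range] at hm
  refine ⟨F.min' hF, ?_, hm.1, F.min'_le i (Finset.mem_filter.2
    ⟨Finset.mem_range.2 hi, Same.refl _ _ _⟩), hm.2⟩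
  rw [Rk_succ, nextR, Finset.mem_union, Finset.mem_union, Finset.mem_filter,
    Finset.mem_filter, Finset.mem_range]
  refine Or.inr (Or.inr ⟨hm.1, fun i' hi' h => F.min'_le i' ?_⟩)
  exact Finset.mem_filter.2 ⟨Finset.mem_range.2 hi', hm.2.trans h⟩

/-- a bound on the number of marked positions -/
noncomputable def bd (C : Type) : ℕ → ℕ
  | 0 => 0
  | r + 1 => bd C r + 2 * (Nat.card (Set C) * (2 ^ bd C r * 2 ^ bd C r))

theorem card_Rk [Finite C] (u : List (Set C)) (r : ℕ) : (Rk u r).card ≤ bd C r := by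
  classical
  have := Fintype.ofFinite C
  induction r with
  | zero => simp [Rk, bd]
  | succ r ih =>
    have key : ∀ F : Finset ℕ, (∀ i ∈ F, ∀ i' ∈ F, Same u (Rk u r) i i' → i = i') →
        F.card ≤ Nat.card (Set C) * (2 ^ bd C r * 2 ^ bd C r) := by
      intro F hF
      let T : Finset (Set C × Finset ℕ × Finset ℕ) :=
        Finset.univ ×ˢ ((Rk u r).powerset ×ˢ (Rk u r).powerset)
      have hT : T.card ≤ Nat.card (Set C) * (2 ^ bd C r * 2 ^ bd C r) := by
        rw [Finset.card_product, Finset.card_product, Finset.card_powerset, Finset.card_univ,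
          Nat.card_eq_fintype_card]
        have h2 : 2 ^ (Rk u r).card ≤ 2 ^ bd C r := Nat.pow_le_pow_right (by norm_num) ih
        exact Nat.mul_le_mul le_rfl (Nat.mul_le_mul h2 h2)
      refine le_trans (Finset.card_le_card_of_injOn (fun i => (symb u i,
        (Rk u r).filter (fun x => x < i), (Rk u r).filter (fun x => i < x))) ?_ ?_) hT
      · intro i _
        exact Finset.mem_coe.2 (Finset.mem_product.2 ⟨Finset.mem_univ _, Finset.mem_product.2
          ⟨Finset.mem_powerset.2 (Finset.filter_subset _ _),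
            Finset.mem_powerset.2 (Finset.filter_subset _ _)⟩⟩)
      · intro i hi i' hi' h
        simp only [Prod.mk.injEq] at h
        refine hF i hi i' hi' ⟨h.1, fun x hx => ⟨?_, ?_⟩⟩
        · have := Finset.ext_iff.1 h.2.1 x
          simpa [hx] using this
        · have := Finset.ext_iff.1 h.2.2 x
          simpa [hx] using this
    rw [Rk_succ, nextR, bd]
    refine (Finset.card_union_le _ _).trans (Nat.add_le_add ih ?_)
    refine (Finset.card_union_le _ _).trans ?_
    rw [two_mul]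
    refine Nat.add_le_add (key _ ?_) (key _ ?_)
    · intro i hi i' hi' h
      rw [Finset.mem_filter, Finset.mem_range] at hi hi'
      exact le_antisymm (hi'.2 i hi.1 h.symm) (hi.2 i' hi'.1 h)
    · intro i hi i' hi' h
      rw [Finset.mem_filter, Finset.mem_range] at hi hi'
      exact le_antisymm (hi.2 i' hi'.1 h) (hi'.2 i hi.1 h.symm)

theorem agree_lt {i i' j j' : ℕ} (h1 : i < i' ↔ j < j') (h2 : i' < i ↔ j' < j) :
    Agree BLt i i' j j' := by
  intro R hR
  rcases hR with rfl | rfl <;> simp only [Pred.Holds] <;> constructor <;> omega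

/-- a list of positions is sorted with respect to the marks `X`, and contains all of them -/
structure Sorted (u : List (Set C)) (X : Finset ℕ) (I : List ℕ) : Prop where
  lt : ∀ i ∈ I, i < u.length
  mem : ∀ x ∈ X, x ∈ I
  pw : I.Pairwise fun i i' => ∀ x ∈ X, x ≤ i → x < i'

theorem Sorted.lt_of {u : List (Set C)} {X : Finset ℕ} {I : List ℕ} (h : Sorted u X I)
    {t t' : ℕ} (ht : t < t') (ht' : t' < I.length) {x : ℕ} (hx : x ∈ X)
    (hxt : x ≤ I[t]'(ht.trans ht')) : x < I[t'] :=
  List.pairwise_iff_getElem.1 h.pw t t' _ ht' ht x hx hxt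

theorem Sorted.idx_lt {u : List (Set C)} {X : Finset ℕ} {I : List ℕ} (h : Sorted u X I)
    {t t' : ℕ} (ht : t < I.length) (ht' : t' < I.length) (hx : I[t'] ∈ X) :
    t < t' ↔ I[t] < I[t'] := by
  constructor
  · intro hlt
    by_contra hcon
    push Not at hcon
    exact lt_irrefl _ (h.lt_of hlt ht' hx hcon)
  · intro hlt
    by_contra hcon
    push Not at hcon
    rcases hcon.lt_or_eq with h1 | h1
    · exact lt_irrefl _ ((h.lt_of h1 ht hx le_rfl).trans hlt)
    · subst h1
      exact lt_irrefl _ hlt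

theorem Sorted.lt_idx {u : List (Set C)} {X : Finset ℕ} {I : List ℕ} (h : Sorted u X I)
    {t t' : ℕ} (ht : t < I.length) (ht' : t' < I.length) (hx : I[t'] ∈ X) :
    t' < t ↔ I[t'] < I[t] := by
  constructor
  · intro hlt
    exact h.lt_of hlt ht hx le_rfl
  · intro hlt
    by_contra hcon
    push Not at hcon
    rcases hcon.lt_or_eq with h1 | h1
    · exact lt_irrefl _ (h.lt_of h1 ht' hx hlt.le)
    · subst h1
      exact lt_irrefl _ hlt

/-- the relation of the game between a word and its sorted rearrangement -/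
def SR (u : List (Set C)) (I : List ℕ) (k i t : ℕ) : Prop :=
  i < u.length ∧ ∃ h : t < I.length, Same u (Rk u k) i I[t]

theorem gameR {u : List (Set C)} {m : ℕ} {X : Finset ℕ} (hX : Rk u m ⊆ X) {I : List ℕ}
    (hI : Sorted u X I) : Game BLt m u (I.map (symb u)) (SR u I) := by
  have hlen : (I.map (symb u)).length = I.length := List.length_map _
  have hmem : ∀ k, k < m → ∀ z ∈ Rk u (k + 1), z ∈ X := fun k hk z hz =>
    hX (Rk_mono u (by omega : k + 1 ≤ m) hz)
  refine ⟨?_, ?_, ?_, ?_, ?_⟩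
  · rintro k i t ⟨hi, ht, h⟩
    exact ⟨hi, ht, h.mono (Rk_subset_succ u k)⟩
  · rintro k hk i t ⟨hi, ht, h⟩ i' hi'
    rw [hlen]
    rcases Nat.lt_trichotomy i' i with hlt | heq | hgt
    · obtain ⟨z, hz, _, hz2, hz3⟩ := exists_first u k hi'
      obtain ⟨t', ht', rfl⟩ := List.mem_iff_getElem.1 (hI.mem z (hmem k hk z hz))
      have h1 : t' < t := (hI.lt_idx ht ht' (hmem k hk _ hz)).2
        (((h.2 _ hz).1).1 (lt_of_le_of_lt hz2 hlt))
      exact ⟨t', ht', ⟨hi', ht', hz3⟩, agree_lt (by omega) (by omega)⟩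
    · subst heq
      exact ⟨t, ht, ⟨hi, ht, h.mono (Rk_subset_succ u k)⟩, agree_lt (by omega) (by omega)⟩
    · obtain ⟨z, hz, _, hz2, hz3⟩ := exists_last u k hi'
      obtain ⟨t', ht', rfl⟩ := List.mem_iff_getElem.1 (hI.mem z (hmem k hk z hz))
      have h1 : t < t' := (hI.idx_lt ht ht' (hmem k hk _ hz)).2
        (((h.2 _ hz).2).1 (lt_of_lt_of_le hgt hz2))
      exact ⟨t', ht', ⟨hi', ht', hz3⟩, agree_lt (by omega) (by omega)⟩
  · rintro k hk i t ⟨hi, ht, h⟩ t' ht'
    rw [hlen] at ht'
    have hi' : I[t'] < u.length := hI.lt _ (List.getElem_mem ht')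
    rcases Nat.lt_trichotomy t' t with hlt | heq | hgt
    · obtain ⟨z, hz, hzu, hz2, hz3⟩ := exists_first u k hi'
      obtain ⟨t'', ht'', rfl⟩ := List.mem_iff_getElem.1 (hI.mem z (hmem k hk z hz))
      have h0 : t'' ≤ t' := by
        by_contra hcon
        push Not at hcon
        exact absurd ((hI.idx_lt ht' ht'' (hmem k hk _ hz)).1 hcon) (not_lt.2 hz2)
      have h1 := (hI.lt_idx ht ht'' (hmem k hk _ hz)).1 (lt_of_le_of_lt h0 hlt)
      have h2 := ((h.2 _ hz).1).2 h1
      exact ⟨_, hzu, ⟨hzu, ht', hz3.symm⟩, agree_lt (by omega) (by omega)⟩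
    · subst heq
      exact ⟨i, hi, ⟨hi, ht, h.mono (Rk_subset_succ u k)⟩, agree_lt (by omega) (by omega)⟩
    · obtain ⟨z, hz, hzu, hz2, hz3⟩ := exists_last u k hi'
      obtain ⟨t'', ht'', rfl⟩ := List.mem_iff_getElem.1 (hI.mem z (hmem k hk z hz))
      have h0 : t' ≤ t'' := by
        by_contra hcon
        push Not at hcon
        exact absurd ((hI.lt_idx ht' ht'' (hmem k hk _ hz)).1 hcon) (not_lt.2 hz2)
      have h1 := (hI.idx_lt ht ht'' (hmem k hk _ hz)).1 (lt_of_lt_of_le hgt h0)
      have h2 := ((h.2 _ hz).2).2 h1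
      exact ⟨_, hzu, ⟨hzu, ht', hz3.symm⟩, agree_lt (by omega) (by omega)⟩
  · intro k hk i' hi'
    rw [hlen]
    obtain ⟨z, hz, _, hz2, hz3⟩ := exists_first u k hi'
    obtain ⟨t', ht', rfl⟩ := List.mem_iff_getElem.1 (hI.mem z (hmem k hk z hz))
    exact ⟨t', ht', hi', ht', hz3⟩
  · intro k hk t' ht'
    rw [hlen] at ht'
    have hi' : I[t'] < u.length := hI.lt _ (List.getElem_mem ht')
    exact ⟨_, hi', hi', ht', Same.refl _ _ _⟩

/-- the sorted rearrangement satisfies the same sentences -/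
theorem sat_rearr {u : List (Set C)} {X : Finset ℕ} (φ : Fm C) (hX : Rk u φ.rank ⊆ X)
    {I : List ℕ} (hI : Sorted u X I) (hB : φ.Over BLt) (hfree : φ.free = ∅) (s t : Bool → ℕ) :
    φ.Sat u s ↔ φ.Sat (I.map (symb u)) t := by
  refine (gameR hX hI).all ?_ φ hB φ.rank le_rfl le_rfl s t
    ⟨fun x hx => by rw [hfree] at hx; exact hx.elim, fun x hx => by rw [hfree] at hx; exact hx.elim⟩
  rintro k i t ⟨hi, ht, h⟩
  rw [h.1]
  show symb u I[t] = (I.map (symb u)).getD t ∅
  rw [List.getD_eq_getElem _ _ (by rw [List.length_map]; exact ht), List.getElem_map]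

end Pool.Agent.R612.PW
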