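import Pool.Agent.R612.PW.Defs

/-!
With the successor: a monotone language over three predicates, definable in `FO²[≤,<,succ,nsucc]`
but not in its negation-free fragment.
-/

set_option autoImplicit false

namespace Pool.Agent.R612.PW

theorem symb_map_range {C : Type} (f : ℕ → Set C) (n i : ℕ) (hi : i < n) :
    symb ((List.range n).map f) i = f i := by
  unfold symb
  rw [List.getD_eq_getElem _ _ (by simpa using hi)]
  simp

/-- a natural number modulo three -/
def c3 (p : ℕ) : Fin 3 := ⟨p % 3, Nat.mod_lt _ (by norm_num)⟩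

theorem c3_add_one (p : ℕ) : c3 (p + 1) = c3 p + 1 := by
  apply Fin.ext
  simp only [c3, Fin.val_add]
  omega

theorem c3_eq {p q : ℕ} : c3 p = c3 q ↔ p % 3 = q % 3 := by
  simp [c3, Fin.ext_iff]

/-- the letter at position `p` is of kind `q` -/
def K (q : Fin 3) (w : List (Set (Fin 3))) (p : ℕ) : Prop := q ∈ symb w p ∧ q + 2 ∉ symb w p

theorem K_unique {q q' : Fin 3} {w : List (Set (Fin 3))} {p : ℕ} (h : K q w p) (h' : K q' w p) :
    q = q' := by
  obtain ⟨h1, h2⟩ := h
  obtain ⟨h3, h4⟩ := h'
  have key : ∀ q q' : Fin 3, q = q' ∨ q' = q + 2 ∨ q' + 2 = q := by decide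
  rcases key q q' with e | e | e
  · exact e
  · rw [e] at h3
    exact absurd h3 h2
  · rw [e] at h4
    exact absurd h1 h4

/-- The language: reading the word from the left, the letters are as expected for a while, and then
there is a letter with the element forbidden at this place, or all letters are as expected and the
length is divisible by three. -/
def Lang : Set (List (Set (Fin 3))) :=
  {w | (∃ x < w.length, (∀ y < x, K (c3 y) w y) ∧ c3 (x + 2) ∈ symb w x) ∨
    ((∀ y < w.length, K (c3 y) w y) ∧ 3 ∣ w.length)}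

theorem forall₂_symb {C : Type} {u v : List (Set C)}
    (h : List.Forall₂ (fun a b => a ⊆ b) u v) (p : ℕ) : symb u p ⊆ symb v p := by
  induction h generalizing p with
  | nil => exact fun _ h => h
  | cons h _ ih =>
    cases p with
    | zero => simpa [symb] using h
    | succ p => simpa [symb] using ih p

theorem c3_add_two (p : ℕ) : c3 (p + 2) = c3 p + 2 := by
  apply Fin.ext
  simp only [c3, Fin.val_add]
  omega

theorem lang_monotone : IsMonotone Lang := by
  classical
  intro u v huv hu
  have hlen := huv.length_eq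
  have hs := forall₂_symb huv
  -- the first position of `v` where the letter is not as expected
  have key : ∀ n, n ≤ u.length → (∀ y < n, K (c3 y) u y) → (∀ y < n, K (c3 y) v y) ∨ v ∈ Lang := by
    intro n
    induction n with
    | zero => exact fun _ _ => Or.inl fun y hy => absurd hy (Nat.not_lt_zero _)
    | succ n ih =>
      intro hn h
      rcases ih (by omega) (fun y hy => h y (by omega)) with h1 | h1
      · by_cases h2 : c3 n + 2 ∈ symb v n
        · right
          left
          exact ⟨n, by omega, h1, by rw [c3_add_two]; exact h2⟩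
        · left
          intro y hy
          rcases Nat.lt_succ_iff_lt_or_eq.1 hy with hy | rfl
          · exact h1 y hy
          · exact ⟨hs _ (h y (by omega)).1, h2⟩
      · exact Or.inr h1
  rcases hu with ⟨x, hx, h1, h2⟩ | ⟨h1, h2⟩
  · rcases key x hx.le h1 with h3 | h3
    · exact Or.inl ⟨x, by omega, h3, hs _ h2⟩
    · exact h3
  · rcases key u.length le_rfl h1 with h3 | h3
    · right
      rw [← hlen]
      exact ⟨h3, h2⟩
    · exact h3

/-! ### The defining sentence -/

/-- the variable denotes the first position -/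
def firstF (v : Bool) : Fm (Fin 3) := .all (!v) (.bin .le v (!v))

/-- the variable denotes the last position -/
def lastF (v : Bool) : Fm (Fin 3) := .all (!v) (.bin .le (!v) v)

/-- the letter is of kind `q` -/
def kF (q : Fin 3) (v : Bool) : Fm (Fin 3) := .and (.letter q v) (.neg (.letter (q + 2) v))

/-- the letter is as expected, given the previous one -/
def okF (v : Bool) : Fm (Fin 3) :=
  .or (.and (firstF v) (kF 0 v))
    (.ex (!v) (.and (.bin .succ (!v) v) (.or (.and (kF 0 (!v)) (kF 1 v))
      (.or (.and (kF 1 (!v)) (kF 2 v)) (.and (kF 2 (!v)) (kF 0 v))))))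

/-- the letter has the element that is forbidden here, given the previous one -/
def accF (v : Bool) : Fm (Fin 3) :=
  .or (.and (firstF v) (.letter 2 v))
    (.ex (!v) (.and (.bin .succ (!v) v) (.or (.and (kF 0 (!v)) (.letter 0 v))
      (.or (.and (kF 1 (!v)) (.letter 1 v)) (.and (kF 2 (!v)) (.letter 2 v))))))

/-- the sentence -/
def langF : Fm (Fin 3) :=
  .or (.ex true (.and (.all false (.or (.neg (.bin .lt false true)) (okF false))) (accF true)))
    (.and (.all true (okF true)) (.all true (.or (.neg (lastF true)) (kF 2 true))))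

theorem sat_kF (q : Fin 3) (v : Bool) (w : List (Set (Fin 3))) (s : Bool → ℕ) :
    (kF q v).Sat w s ↔ K q w (s v) := Iff.rfl

theorem not_ne (v : Bool) : (!v) ≠ v := by cases v <;> simp

theorem sat_firstF (v : Bool) (w : List (Set (Fin 3))) (s : Bool → ℕ) (h : s v < w.length) :
    (firstF v).Sat w s ↔ s v = 0 := by
  simp only [firstF, Fm.Sat, Pred.Holds, Function.update_self,
    Function.update_of_ne (not_ne v).symm]
  constructor
  · intro h1
    exact Nat.le_zero.1 (h1 0 (by omega))
  · intro h1 p _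
    omega

theorem sat_lastF (v : Bool) (w : List (Set (Fin 3))) (s : Bool → ℕ) (h : s v < w.length) :
    (lastF v).Sat w s ↔ s v + 1 = w.length := by
  simp only [lastF, Fm.Sat, Pred.Holds, Function.update_self,
    Function.update_of_ne (not_ne v).symm]
  constructor
  · intro h1
    have := h1 (w.length - 1) (by omega)
    omega
  · intro h1 p _
    omega

theorem sat_okF (v : Bool) (w : List (Set (Fin 3))) (s : Bool → ℕ) (h : s v < w.length) :
    (okF v).Sat w s ↔ (s v = 0 ∧ K 0 w (s v)) ∨
      ∃ p, s v = p + 1 ∧ ∃ q, K q w p ∧ K (q + 1) w (s v) := by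
  have h1 := sat_firstF v w s h
  simp only [okF, Fm.Sat, sat_kF, Pred.Holds, Function.update_self,
    Function.update_of_ne (not_ne v).symm] at h1 ⊢
  rw [h1]
  refine or_congr Iff.rfl ?_
  constructor
  · rintro ⟨p, _, h2, h3 | h3 | h3⟩
    · exact ⟨p, h2, 0, h3⟩
    · exact ⟨p, h2, 1, h3⟩
    · exact ⟨p, h2, 2, h3⟩
  · rintro ⟨p, h2, q, h3⟩
    refine ⟨p, by omega, h2, ?_⟩
    fin_cases q
    · exact Or.inl h3
    · exact Or.inr (Or.inl h3)
    · exact Or.inr (Or.inr h3)

theorem sat_accF (v : Bool) (w : List (Set (Fin 3))) (s : Bool → ℕ) (h : s v < w.length) :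
    (accF v).Sat w s ↔ (s v = 0 ∧ (2 : Fin 3) ∈ symb w (s v)) ∨
      ∃ p, s v = p + 1 ∧ ∃ q, K q w p ∧ q ∈ symb w (s v) := by
  have h1 := sat_firstF v w s h
  simp only [accF, Fm.Sat, sat_kF, Pred.Holds, Function.update_self,
    Function.update_of_ne (not_ne v).symm] at h1 ⊢
  rw [h1]
  refine or_congr Iff.rfl ?_
  constructor
  · rintro ⟨p, _, h2, h3 | h3 | h3⟩
    · exact ⟨p, h2, 0, h3⟩
    · exact ⟨p, h2, 1, h3⟩
    · exact ⟨p, h2, 2, h3⟩
  · rintro ⟨p, h2, q, h3⟩
    refine ⟨p, by omega, h2, ?_⟩
    fin_cases q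
    · exact Or.inl h3
    · exact Or.inr (Or.inl h3)
    · exact Or.inr (Or.inr h3)

/-- the local condition on a position -/
def okS (w : List (Set (Fin 3))) (y : ℕ) : Prop :=
  (y = 0 ∧ K 0 w y) ∨ ∃ p, y = p + 1 ∧ ∃ q, K q w p ∧ K (q + 1) w y

theorem ok_iff (w : List (Set (Fin 3))) (n : ℕ) :
    (∀ y < n, okS w y) ↔ ∀ y < n, K (c3 y) w y := by
  induction n with
  | zero => simp
  | succ n ih =>
    have e : ∀ P : ℕ → Prop, (∀ y < n + 1, P y) ↔ (∀ y < n, P y) ∧ P n := by
      intro P
      constructor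
      · exact fun h => ⟨fun y hy => h y (by omega), h n (by omega)⟩
      · rintro ⟨h1, h2⟩ y hy
        rcases Nat.lt_succ_iff_lt_or_eq.1 hy with hy | rfl
        · exact h1 y hy
        · exact h2
    rw [e, e, ih]
    refine and_congr_right fun h => ?_
    cases n with
    | zero =>
      constructor
      · rintro (⟨-, h1⟩ | ⟨p, h1, -⟩)
        · exact h1
        · omega
      · exact fun h1 => Or.inl ⟨rfl, h1⟩
    | succ n =>
      have h1 := h n (by omega)
      constructor
      · rintro (⟨h2, -⟩ | ⟨p, h2, q, h3, h4⟩)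
        · omega
        · obtain rfl : n = p := by omega
          rw [c3_add_one, K_unique h1 h3]
          exact h4
      · intro h2
        rw [c3_add_one] at h2
        exact Or.inr ⟨n, rfl, _, h1, h2⟩

theorem sat_langF (w : List (Set (Fin 3))) (s : Bool → ℕ) : w ∈ Lang ↔ langF.Sat w s := by
  have hne : (true : Bool) ≠ false := by simp
  have e1 : ∀ x < w.length, ((Fm.and (Fm.all false (Fm.or (Fm.neg (Fm.bin .lt false true))
      (okF false))) (accF true)).Sat w (Function.update s true x)) ↔
      ((∀ y < x, K (c3 y) w y) ∧ c3 (x + 2) ∈ symb w x) := by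
    intro x hx
    have e2 : ((Fm.all false (Fm.or (Fm.neg (Fm.bin .lt false true))
        (okF false))).Sat w (Function.update s true x)) ↔ ∀ y < x, K (c3 y) w y := by
      rw [← ok_iff]
      constructor
      · intro h y hy
        rcases h y (by omega) with h1 | h1
        · exact absurd (by simpa [Pred.Holds, Fm.Sat] using hy) h1
        · rw [sat_okF _ _ _ (by simpa using (by omega : y < w.length))] at h1
          simpa [okS] using h1
      · intro h y hy
        by_cases hyx : y < x
        · right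
          rw [sat_okF _ _ _ (by simpa using hy)]
          simpa [okS] using h y hyx
        · left
          intro h1
          exact hyx (by simpa [Pred.Holds, Fm.Sat] using h1)
    have e3 := sat_accF true w (Function.update s true x) (by simpa using hx)
    rw [Function.update_self] at e3
    constructor
    · rintro ⟨h1, h2⟩
      rw [e2] at h1
      rw [e3] at h2
      refine ⟨h1, ?_⟩
      rcases h2 with ⟨rfl, h2⟩ | ⟨p, rfl, q, h2, h3⟩
      · exact h2
      · have := K_unique h2 (h1 p (by omega))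
        rw [this] at h3
        have e : c3 (p + 1 + 2) = c3 p := c3_eq.2 (by omega)
        rw [e]
        exact h3
    · rintro ⟨h1, h2⟩
      refine ⟨e2.2 h1, e3.2 ?_⟩
      cases x with
      | zero => exact Or.inl ⟨rfl, h2⟩
      | succ p =>
        refine Or.inr ⟨p, rfl, c3 p, h1 p (by omega), ?_⟩
        have e : c3 (p + 1 + 2) = c3 p := c3_eq.2 (by omega)
        rw [e] at h2
        exact h2
  have e4 : ((Fm.all true (okF true)).Sat w s) ↔ ∀ y < w.length, K (c3 y) w y := by
    rw [← ok_iff]
    refine forall_congr' fun y => imp_congr_right fun hy => ?_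
    rw [sat_okF _ _ _ (by simpa using hy), Function.update_self]
    rfl
  have e5 : (∀ y < w.length, K (c3 y) w y) →
      (((Fm.all true (Fm.or (Fm.neg (lastF true)) (kF 2 true))).Sat w s) ↔ 3 ∣ w.length) := by
    intro h
    constructor
    · intro h1
      rcases Nat.eq_zero_or_pos w.length with h0 | h0
      · rw [h0]
        exact dvd_zero _
      · rcases h1 (w.length - 1) (by omega) with h2 | h2
        · refine absurd ?_ h2
          rw [sat_lastF _ _ _ (by rw [Function.update_self]; omega), Function.update_self]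
          omega
        · rw [sat_kF, Function.update_self] at h2
          have h3 := K_unique h2 (h (w.length - 1) (by omega))
          have h4 : c3 2 = c3 (w.length - 1) := h3
          rw [c3_eq] at h4
          omega
    · intro h1 p hp
      by_cases hp' : p + 1 = w.length
      · right
        rw [sat_kF, Function.update_self]
        have h2 := h p hp
        have h4 : c3 p = c3 2 := c3_eq.2 (by omega)
        rw [h4] at h2
        exact h2
      · left
        intro h2
        rw [sat_lastF _ _ _ (by rw [Function.update_self]; omega), Function.update_self] at h2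
        exact hp' h2
  constructor
  · rintro (⟨x, hx, h⟩ | ⟨h1, h2⟩)
    · exact Or.inl ⟨x, hx, (e1 x hx).2 h⟩
    · exact Or.inr ⟨e4.2 h1, (e5 h1).2 h2⟩
  · rintro (⟨x, hx, h⟩ | ⟨h1, h2⟩)
    · exact Or.inl ⟨x, hx, (e1 x hx).1 h⟩
    · exact Or.inr ⟨e4.1 h1, (e5 (e4.1 h1)).1 h2⟩

theorem lang_definable : Definable BZero Lang := by
  refine ⟨langF, ?_, ?_, fun w => sat_langF w _⟩
  · ext x
    cases x <;> simp [langF, okF, accF, firstF, lastF, kF, Fm.free]
  · simp [langF, okF, accF, firstF, lastF, kF, Fm.Over, BZero]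

/-! ### It is not definable without negations -/

theorem agree_zero {i i' j j' : ℕ} (h1 : i < i' ↔ j < j') (h2 : i' < i ↔ j' < j)
    (h3 : i' = i + 1 ↔ j' = j + 1) (h4 : i = i' + 1 ↔ j = j' + 1) : Agree BZero i i' j j' := by
  intro R _
  cases R <;> simp only [Pred.Holds] <;> constructor <;> omega

/-- the word `(abc)^N` -/
def uW (N : ℕ) : List (Set (Fin 3)) := (List.range (3 * N)).map fun i => {c3 i}

/-- the word `((ab)(bc)(ca))^N (ab)(bc)` -/
def vW (N : ℕ) : List (Set (Fin 3)) := (List.range (3 * N + 2)).map fun i => {c3 i, c3 (i + 1)}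

theorem uW_mem (N : ℕ) : uW N ∈ Lang := by
  right
  have hl : (uW N).length = 3 * N := by simp [uW]
  rw [hl]
  refine ⟨fun y hy => ?_, ⟨N, rfl⟩⟩
  unfold K
  rw [uW, symb_map_range _ _ _ hy]
  refine ⟨rfl, ?_⟩
  rw [← c3_add_two, Set.mem_singleton_iff, c3_eq]
  omega

theorem vW_not_mem (N : ℕ) : vW N ∉ Lang := by
  have hl : (vW N).length = 3 * N + 2 := by simp [vW]
  rintro (⟨x, hx, -, h⟩ | ⟨-, h⟩)
  · rw [hl] at hx
    rw [vW, symb_map_range _ _ _ hx, Set.mem_insert_iff, Set.mem_singleton_iff, c3_eq, c3_eq] at h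
    omega
  · rw [hl] at h
    omega

/-- the relation of the game -/
def SW (N k i j : ℕ) : Prop :=
  i < 3 * N ∧ j < 3 * N + 2 ∧ (j % 3 = i % 3 ∨ (j + 1) % 3 = i % 3) ∧
    (i = j ∨ (5 * k ≤ i ∧ 5 * k ≤ j)) ∧ (j = i + 2 ∨ (i + 5 * k < 3 * N ∧ j + 5 * k < 3 * N + 2))

theorem gameW (K N : ℕ) (hN : 10 * K + 10 ≤ N) : Game BZero K (uW N) (vW N) (SW N) := by
  have hu : (uW N).length = 3 * N := by simp [uW]
  have hv : (vW N).length = 3 * N + 2 := by simp [vW]
  refine ⟨?_, ?_, ?_, ?_, ?_⟩
  · intro k i j h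
    unfold SW at h ⊢
    omega
  · intro k hk i j h i' hi'
    rw [hu] at hi'
    rw [hv]
    unfold SW at h
    have pick : ∀ m, ∃ m', (m' = m ∨ m' = m + 1) ∧ (m' % 3 = i' % 3 ∨ (m' + 1) % 3 = i' % 3) := by
      intro m
      by_cases hm : m % 3 = i' % 3 ∨ (m + 1) % 3 = i' % 3
      · exact ⟨m, Or.inl rfl, hm⟩
      · exact ⟨m + 1, Or.inr rfl, by omega⟩
    suffices H : ∃ j', SW N k i' j' ∧ ((i < i' ↔ j < j') ∧ (i' < i ↔ j' < j) ∧
        (i' = i + 1 ↔ j' = j + 1) ∧ (i = i' + 1 ↔ j = j' + 1)) by
      obtain ⟨j', h1, h2, h3, h4, h5⟩ := H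
      exact ⟨j', h1.2.1, h1, agree_zero h2 h3 h4 h5⟩
    unfold SW
    rcases Nat.lt_trichotomy i' i with hlt | heq | hgt
    · by_cases h1 : i = i' + 1
      · exact ⟨j - 1, by omega⟩
      · by_cases h2 : i' < 5 * k
        · exact ⟨i', by omega⟩
        · by_cases h3 : 3 * N ≤ i' + 5 * k
          · exact ⟨i' + 2, by omega⟩
          · by_cases h4 : i = j
            · exact ⟨i', by omega⟩
            · obtain ⟨m, hm1, hm2⟩ := pick (5 * k)
              exact ⟨m, by omega⟩
    · exact ⟨j, by omega⟩
    · by_cases h1 : i' = i + 1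
      · exact ⟨j + 1, by omega⟩
      · by_cases h2 : i' < 5 * k
        · exact ⟨i', by omega⟩
        · by_cases h3 : 3 * N ≤ i' + 5 * k
          · exact ⟨i' + 2, by omega⟩
          · by_cases h4 : j = i + 2
            · exact ⟨i' + 2, by omega⟩
            · obtain ⟨m, hm1, hm2⟩ := pick (max (j + 2) (5 * k))
              exact ⟨m, by omega⟩
  · intro k hk i j h j' hj'
    rw [hv] at hj'
    rw [hu]
    unfold SW at h
    have pick : ∀ m, ∃ m', (m' = m ∨ m' = m + 1) ∧ (j' % 3 = m' % 3 ∨ (j' + 1) % 3 = m' % 3) := by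
      intro m
      by_cases hm : j' % 3 = m % 3 ∨ (j' + 1) % 3 = m % 3
      · exact ⟨m, Or.inl rfl, hm⟩
      · exact ⟨m + 1, Or.inr rfl, by omega⟩
    suffices H : ∃ i', SW N k i' j' ∧ ((i < i' ↔ j < j') ∧ (i' < i ↔ j' < j) ∧
        (i' = i + 1 ↔ j' = j + 1) ∧ (i = i' + 1 ↔ j = j' + 1)) by
      obtain ⟨i', h1, h2, h3, h4, h5⟩ := H
      exact ⟨i', h1.1, h1, agree_zero h2 h3 h4 h5⟩
    unfold SW
    rcases Nat.lt_trichotomy j' j with hlt | heq | hgt
    · by_cases h1 : j = j' + 1
      · exact ⟨i - 1, by omega⟩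
      · by_cases h2 : j' < 5 * k
        · exact ⟨j', by omega⟩
        · by_cases h3 : 3 * N + 2 ≤ j' + 5 * k
          · exact ⟨j' - 2, by omega⟩
          · by_cases h4 : i = j
            · exact ⟨j', by omega⟩
            · obtain ⟨m, hm1, hm2⟩ := pick (5 * k)
              exact ⟨m, by omega⟩
    · exact ⟨i, by omega⟩
    · by_cases h1 : j' = j + 1
      · exact ⟨i + 1, by omega⟩
      · by_cases h2 : j' < 5 * k
        · exact ⟨j', by omega⟩
        · by_cases h3 : 3 * N + 2 ≤ j' + 5 * k
          · exact ⟨j' - 2, by omega⟩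
          · by_cases h4 : j = i + 2
            · exact ⟨j' - 2, by omega⟩
            · obtain ⟨m, hm1, hm2⟩ := pick (max (i + 2) (5 * k))
              exact ⟨m, by omega⟩
  · intro k hk i' hi'
    rw [hu] at hi'
    rw [hv]
    unfold SW
    by_cases h2 : 3 * N ≤ i' + 5 * k
    · exact ⟨i' + 2, by omega⟩
    · exact ⟨i', by omega⟩
  · intro k hk j' hj'
    rw [hv] at hj'
    rw [hu]
    unfold SW
    by_cases h2 : 3 * N ≤ j' + 5 * k
    · exact ⟨j' - 2, by omega⟩
    · exact ⟨j', by omega⟩

theorem lang_not_posDefinable : ¬ PosDefinable BZero Lang := by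
  rintro ⟨φ, hfree, hB, hP, h⟩
  let N := 10 * φ.rank + 10
  have hG := gameW φ.rank N le_rfl
  have h1 : φ.Sat (uW N) fun _ => 0 := (h _).1 (uW_mem N)
  have h2 := hG.pos (fun k i j hS => by
    rw [uW, vW, symb_map_range _ _ _ hS.1, symb_map_range _ _ _ hS.2.1,
      Set.singleton_subset_iff, Set.mem_insert_iff, Set.mem_singleton_iff, c3_eq, c3_eq]
    have := hS.2.2.1
    omega) φ hB hP φ.rank le_rfl le_rfl (fun _ => 0) (fun _ => 0)
    ⟨fun x hx => by rw [hfree] at hx; exact hx.elim, fun x hx => by rw [hfree] at hx; exact hx.elim⟩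
    h1
  exact vW_not_mem N ((h _).2 h2)

end Pool.Agent.R612.PW
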