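import Pool.Agent.R612.PW.Chain

/-!
Negation-free formulas that describe the game.
-/

set_option autoImplicit false

namespace Pool.Agent.R612.PW

variable {C : Type}

/-- the types of rank `n` -/
def Typ (C : Type) : ℕ → Type
  | 0 => Set C
  | n + 1 => Set C × Set (Typ C n) × Set (Typ C n)

instance finite_typ [Finite C] (n : ℕ) : Finite (Typ C n) := by
  induction n with
  | zero => exact inferInstanceAs (Finite (Set C))
  | succ n ih => exact inferInstanceAs (Finite (Set C × Set (Typ C n) × Set (Typ C n)))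

/-- the type of a position -/
def tp (u : List (Set C)) : (n : ℕ) → ℕ → Typ C n
  | 0, i => symb u i
  | n + 1, i => (symb u i, {t | ∃ i', i < i' ∧ i' < u.length ∧ tp u n i' = t},
      {t | ∃ i' < i, tp u n i' = t})

/-- a finite conjunction -/
noncomputable def bigAnd {ι : Type} [Finite ι] (T : Set ι) (f : ι → Fm C) : Fm C :=
  ((Set.toFinite T).toFinset.toList.map f).foldr Fm.and Fm.top

/-- a finite disjunction -/
noncomputable def bigOr {ι : Type} [Finite ι] (T : Set ι) (f : ι → Fm C) : Fm C :=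
  ((Set.toFinite T).toFinset.toList.map f).foldr Fm.or Fm.bot

theorem sat_bigAnd {ι : Type} [Finite ι] (T : Set ι) (f : ι → Fm C) (w : List (Set C))
    (s : Bool → ℕ) : (bigAnd T f).Sat w s ↔ ∀ t ∈ T, (f t).Sat w s := by
  have key : ∀ l : List ι, ((l.map f).foldr Fm.and Fm.top).Sat w s ↔ ∀ t ∈ l, (f t).Sat w s := by
    intro l
    induction l with
    | nil => simp [Fm.Sat]
    | cons a l ih => simp [Fm.Sat, ih]
  rw [bigAnd, key]
  simp

theorem sat_bigOr {ι : Type} [Finite ι] (T : Set ι) (f : ι → Fm C) (w : List (Set C))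
    (s : Bool → ℕ) : (bigOr T f).Sat w s ↔ ∃ t ∈ T, (f t).Sat w s := by
  have key : ∀ l : List ι, ((l.map f).foldr Fm.or Fm.bot).Sat w s ↔ ∃ t ∈ l, (f t).Sat w s := by
    intro l
    induction l with
    | nil => simp [Fm.Sat]
    | cons a l ih => simp [Fm.Sat, ih]
  rw [bigOr, key]
  simp

/-- the properties of formulas that we need: free variables in `V`, over `BLt`, negation-free -/
structure Ok (V : Set Bool) (φ : Fm C) : Prop where
  free : φ.free ⊆ V
  ov : φ.Over BLt
  pos : φ.Pos

theorem ok_bigAnd {ι : Type} [Finite ι] {V : Set Bool} (T : Set ι) (f : ι → Fm C)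
    (h : ∀ t ∈ T, Ok V (f t)) : Ok V (bigAnd T f) := by
  have key : ∀ l : List ι, (∀ t ∈ l, Ok V (f t)) → Ok V ((l.map f).foldr Fm.and Fm.top) := by
    intro l
    induction l with
    | nil => exact fun _ => ⟨Set.empty_subset _, trivial, trivial⟩
    | cons a l ih =>
      intro h
      have h1 := h a List.mem_cons_self
      have h2 := ih fun t ht => h t (List.mem_cons_of_mem _ ht)
      exact ⟨Set.union_subset h1.free h2.free, ⟨h1.ov, h2.ov⟩, ⟨h1.pos, h2.pos⟩⟩
  exact key _ fun t ht => h t (by simpa using ht)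

theorem ok_bigOr {ι : Type} [Finite ι] {V : Set Bool} (T : Set ι) (f : ι → Fm C)
    (h : ∀ t ∈ T, Ok V (f t)) : Ok V (bigOr T f) := by
  have key : ∀ l : List ι, (∀ t ∈ l, Ok V (f t)) → Ok V ((l.map f).foldr Fm.or Fm.bot) := by
    intro l
    induction l with
    | nil => exact fun _ => ⟨Set.empty_subset _, trivial, trivial⟩
    | cons a l ih =>
      intro h
      have h1 := h a List.mem_cons_self
      have h2 := ih fun t ht => h t (List.mem_cons_of_mem _ ht)
      exact ⟨Set.union_subset h1.free h2.free, ⟨h1.ov, h2.ov⟩, ⟨h1.pos, h2.pos⟩⟩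
  exact key _ fun t ht => h t (by simpa using ht)

variable [Finite C]

/-- the letter at the position contains `a` -/
noncomputable def lettersF (a : Set C) (x : Bool) : Fm C := bigAnd a fun p => Fm.letter p x

theorem sat_lettersF (a : Set C) (x : Bool) (w : List (Set C)) (s : Bool → ℕ) :
    (lettersF a x).Sat w s ↔ a ⊆ symb w (s x) := by
  rw [lettersF, sat_bigAnd]
  rfl

theorem ok_lettersF (a : Set C) (x : Bool) : Ok {x} (lettersF a x) :=
  ok_bigAnd _ _ fun _ _ => ⟨subset_rfl, trivial, trivial⟩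

/-- the formula of a type -/
noncomputable def fm : (n : ℕ) → Typ C n → Bool → Fm C
  | 0, a, x => lettersF a x
  | n + 1, t, x => .and (lettersF t.1 x)
      (.and (bigAnd t.2.1 fun t' => .ex (!x) (.and (.bin .lt x (!x)) (fm n t' (!x))))
        (.all (!x) (.or (.bin .le x (!x)) (bigOr t.2.2 fun t' => fm n t' (!x)))))

theorem ok_fm : ∀ (n : ℕ) (t : Typ C n) (x : Bool), Ok {x} (fm n t x) := by
  intro n
  induction n with
  | zero => exact fun t x => ok_lettersF t x
  | succ n ih =>
    intro t x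
    have e : ∀ y : Bool, y ∉ ({x} : Set Bool) → y ∈ ({!x} : Set Bool) := by
      intro y hy
      revert hy
      cases x <;> cases y <;> simp
    have h1 := ok_lettersF t.1 x
    have h2 : Ok {x} (bigAnd t.2.1 fun t' => Fm.ex (!x) (.and (.bin .lt x (!x)) (fm n t' (!x)))) := by
      refine ok_bigAnd _ _ fun t' _ => ?_
      have h3 := ih t' (!x)
      refine ⟨?_, ⟨Or.inr rfl, h3.ov⟩, ⟨trivial, h3.pos⟩⟩
      rintro y ⟨hy, hy'⟩
      by_contra hcon
      exact hy' (e y hcon)
    have h3 : Ok {x} (Fm.all (!x) (.or (.bin .le x (!x)) (bigOr t.2.2 fun t' => fm n t' (!x)))) := by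
      have h4 : Ok {!x} (bigOr t.2.2 fun t' => fm n t' (!x)) :=
        ok_bigOr _ _ fun t' _ => ih t' (!x)
      refine ⟨?_, ⟨Or.inl rfl, h4.ov⟩, ⟨trivial, h4.pos⟩⟩
      rintro y ⟨hy, hy'⟩
      by_contra hcon
      exact hy' (e y hcon)
    exact ⟨Set.union_subset h1.free (Set.union_subset h2.free h3.free),
      ⟨h1.ov, h2.ov, h3.ov⟩, ⟨h1.pos, h2.pos, h3.pos⟩⟩

theorem bnot_ne (x : Bool) : (!x) ≠ x := by cases x <;> simp

theorem sat_fm (u w : List (Set C)) : ∀ (n i : ℕ) (x : Bool) (s : Bool → ℕ), s x < w.length →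
    ((fm n (tp u n i) x).Sat w s ↔ FH u w n i (s x)) := by
  intro n
  induction n with
  | zero => exact fun i x s _ => sat_lettersF _ _ _ _
  | succ n ih =>
    intro i x s hs
    have h1 := sat_lettersF (symb u i) x w s
    have h2 : (bigAnd {t | ∃ i', i < i' ∧ i' < u.length ∧ tp u n i' = t}
        fun t' => Fm.ex (!x) (.and (.bin .lt x (!x)) (fm n t' (!x)))).Sat w s ↔
        ∀ i', i < i' → i' < u.length → ∃ j', s x < j' ∧ j' < w.length ∧ FH u w n i' j' := by
      rw [sat_bigAnd]
      constructor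
      · intro h i' hi hi'
        obtain ⟨p, hp, hp1, hp2⟩ := h _ ⟨i', hi, hi', rfl⟩
        rw [ih _ _ _ (by simpa using hp), Function.update_self] at hp2
        refine ⟨p, ?_, hp, hp2⟩
        simpa [Fm.Sat, Pred.Holds, Function.update_of_ne (bnot_ne x).symm] using hp1
      · rintro h _ ⟨i', hi, hi', rfl⟩
        obtain ⟨p, hp1, hp, hp2⟩ := h i' hi hi'
        refine ⟨p, hp, ?_, ?_⟩
        · simpa [Fm.Sat, Pred.Holds, Function.update_of_ne (bnot_ne x).symm] using hp1
        · rw [ih _ _ _ (by simpa using hp), Function.update_self]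
          exact hp2
    have h3 : (Fm.all (!x) (.or (.bin .le x (!x))
        (bigOr {t | ∃ i' < i, tp u n i' = t} fun t' => fm n t' (!x)))).Sat w s ↔
        ∀ j' < s x, ∃ i' < i, FH u w n i' j' := by
      constructor
      · intro h j' hj'
        rcases h j' (hj'.trans hs) with h4 | h4
        · have : s x ≤ j' := by
            simpa [Fm.Sat, Pred.Holds, Function.update_of_ne (bnot_ne x).symm] using h4
          omega
        · rw [sat_bigOr] at h4
          obtain ⟨_, ⟨i', hi', rfl⟩, h5⟩ := h4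
          rw [ih _ _ _ (by simpa using hj'.trans hs), Function.update_self] at h5
          exact ⟨i', hi', h5⟩
      · intro h p hp
        by_cases hpx : p < s x
        · right
          obtain ⟨i', hi', h5⟩ := h p hpx
          rw [sat_bigOr]
          refine ⟨_, ⟨i', hi', rfl⟩, ?_⟩
          rw [ih _ _ _ (by simpa using hp), Function.update_self]
          exact h5
        · left
          have : s x ≤ p := not_lt.1 hpx
          simpa [Fm.Sat, Pred.Holds, Function.update_of_ne (bnot_ne x).symm] using this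
    exact and_congr h1 (and_congr h2 h3)

/-- the sentence of a set of types -/
noncomputable def sentF (n : ℕ) (T : Set (Typ C n)) : Fm C :=
  .and (bigAnd T fun t => .ex true (fm n t true)) (.all true (bigOr T fun t => fm n t true))

theorem ok_sentF (n : ℕ) (T : Set (Typ C n)) : Ok ∅ (sentF n T) := by
  have h1 : Ok ∅ (bigAnd T fun t => Fm.ex true (fm n t true)) := by
    refine ok_bigAnd _ _ fun t _ => ?_
    have h := ok_fm n t true
    exact ⟨fun y hy => (hy.2 (h.free hy.1)).elim, h.ov, h.pos⟩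
  have h2 : Ok ({true} : Set Bool) (bigOr T fun t => fm n t true) :=
    ok_bigOr _ _ fun t _ => ok_fm n t true
  exact ⟨Set.union_subset h1.free fun y hy => (hy.2 (h2.free hy.1)).elim, ⟨h1.ov, h2.ov⟩,
    ⟨h1.pos, h2.pos⟩⟩

/-- the types of the positions of a word -/
def types (u : List (Set C)) (n : ℕ) : Set (Typ C n) := {t | ∃ i < u.length, tp u n i = t}

theorem sat_sentF (u w : List (Set C)) (n : ℕ) (s : Bool → ℕ) :
    (sentF n (types u n)).Sat w s ↔ Sim u w n := by
  have h1 : (bigAnd (types u n) fun t => Fm.ex true (fm n t true)).Sat w s ↔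
      ∀ i < u.length, ∃ j < w.length, FH u w n i j := by
    rw [sat_bigAnd]
    constructor
    · intro h i hi
      obtain ⟨p, hp, h2⟩ := h _ ⟨i, hi, rfl⟩
      rw [sat_fm _ _ _ _ _ _ (by simpa using hp), Function.update_self] at h2
      exact ⟨p, hp, h2⟩
    · rintro h _ ⟨i, hi, rfl⟩
      obtain ⟨p, hp, h2⟩ := h i hi
      refine ⟨p, hp, ?_⟩
      rw [sat_fm _ _ _ _ _ _ (by simpa using hp), Function.update_self]
      exact h2
  have h2 : (Fm.all true (bigOr (types u n) fun t => fm n t true)).Sat w s ↔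
      ∀ j < w.length, ∃ i < u.length, FH u w n i j := by
    refine forall_congr' fun j => imp_congr_right fun hj => ?_
    rw [sat_bigOr]
    constructor
    · rintro ⟨_, ⟨i, hi, rfl⟩, h⟩
      rw [sat_fm _ _ _ _ _ _ (by simpa using hj), Function.update_self] at h
      exact ⟨i, hi, h⟩
    · rintro ⟨i, hi, h⟩
      refine ⟨_, ⟨i, hi, rfl⟩, ?_⟩
      rw [sat_fm _ _ _ _ _ _ (by simpa using hj), Function.update_self]
      exact h
  constructor
  · rintro ⟨h3, h4⟩
    exact ⟨h1.1 h3, h2.1 h4⟩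
  · rintro ⟨h3, h4⟩
    exact ⟨h1.2 h3, h2.2 h4⟩

omit [Finite C] in
theorem FH.refl (u : List (Set C)) : ∀ n i, i < u.length → FH u u n i i := by
  intro n
  induction n with
  | zero => exact fun i _ => subset_rfl
  | succ n ih =>
    intro i hi
    exact ⟨subset_rfl, fun i' h1 h2 => ⟨i', h1, h2, ih i' h2⟩,
      fun j' h1 => ⟨j', h1, ih j' (h1.trans hi)⟩⟩

/-- monotone languages definable in `FO²[≤,<]` are definable without negations -/
theorem posDefinable_of_monotone {L : Set (List (Set C))} (hL : IsMonotone L)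
    (hD : Definable BLt L) : PosDefinable BLt L := by
  obtain ⟨φ, hfree, hB, hφ⟩ := hD
  let N := bd C φ.rank * (bd C φ.rank * 4)
  let ψ : Fm C := bigOr {T : Set (Typ C N) | ∃ u ∈ L, types u N = T} (sentF N)
  have hψ : Ok ∅ ψ := ok_bigOr _ _ fun T _ => ok_sentF N T
  refine ⟨ψ, Set.subset_empty_iff.1 hψ.free, hψ.ov, hψ.pos, fun w => ?_⟩
  have h1 : ψ.Sat w (fun _ => 0) ↔ ∃ u ∈ L, Sim u w N := by
    rw [sat_bigOr]
    constructor
    · rintro ⟨_, ⟨u, hu, rfl⟩, h⟩
      exact ⟨u, hu, (sat_sentF _ _ _ _).1 h⟩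
    · rintro ⟨u, hu, h⟩
      exact ⟨_, ⟨u, hu, rfl⟩, (sat_sentF _ _ _ _).2 h⟩
  rw [h1]
  constructor
  · intro hw
    exact ⟨w, hw, ⟨fun i hi => ⟨i, hi, FH.refl w N i hi⟩, fun i hi => ⟨i, hi, FH.refl w N i hi⟩⟩⟩
  · rintro ⟨u, hu, h⟩
    obtain ⟨I, J, hI, hJ, hIJ⟩ := exists_chain (Rk_lt u φ.rank) (Rk_lt w φ.rank)
      (Nat.mul_le_mul (card_Rk u φ.rank) (Nat.mul_le_mul (card_Rk w φ.rank) le_rfl)) h
    have h2 : I.map (symb u) ∈ L := by
      rw [hφ, ← sat_rearr φ subset_rfl hI hB hfree (fun _ => 0) (fun _ => 0), ← hφ]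
      exact hu
    have h3 := hL _ _ hIJ h2
    rw [hφ, ← sat_rearr φ subset_rfl hJ hB hfree (fun _ => 0) (fun _ => 0), ← hφ] at h3
    exact h3

end Pool.Agent.R612.PW
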